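import Pool.Agent.RHO.Stmts3

/-!
# Row MG4 of the table ca0 (MP_ca8ef3_an)
-/

set_option autoImplicit false

namespace Pool.Agent.RHO.H77c

open Finset

/-- The words of length at most `t`. -/
def wds (D t : ℕ) : Finset (List (Fin D)) :=
  (range (t + 1)).biUnion fun n => (univ : Finset (Fin n → Fin D)).image List.ofFn

theorem mem_wds {D t : ℕ} {W : List (Fin D)} (h : W.length ≤ t) : W ∈ wds D t := by
  unfold wds
  rw [mem_biUnion]
  exact ⟨W.length, mem_range.2 (by omega), mem_image.2 ⟨W.get, mem_univ _, List.ofFn_get W⟩⟩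

theorem card_wds (D t : ℕ) : (wds D t).card ≤ (D + 1) ^ t := by
  unfold wds
  refine card_biUnion_le.trans ?_
  rw [add_pow]
  refine sum_le_sum fun n hn => ?_
  refine card_image_le.trans ?_
  rw [card_univ, Fintype.card_fun, Fintype.card_fin, Fintype.card_fin, one_pow, mul_one]
  exact Nat.le_mul_of_pos_right _ (Nat.choose_pos (by rw [mem_range] at hn; omega))

theorem mg4 (h3 : MG3Stmt) : MG4Stmt := by
  classical
  intro A D t u hu ht
  by_contra hcon
  push Not at hcon
  set N : ℕ := Fintype.card (Fin t → Fin D → Matrix (Fin A) (Fin A) (ZMod 2)) with hN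
  have hNpos : 0 < N := Fintype.card_pos
  set bad : List (Fin D) → ℕ → Finset (Fin t → Fin D → Matrix (Fin A) (Fin A) (ZMod 2)) :=
    fun W d => if (∃ y, y.length = d ∧ mg true W y ≠ 0) then
      univ.filter fun M => evl (xM M) (mg true W) 0 d u = 0 else ∅ with hbad
  have hb : ∀ W, ∀ d ∈ Icc 1 t, (bad W d).card * 2 ^ A ≤ t * N := by
    intro W d hd
    rw [mem_Icc] at hd
    simp only [hbad]
    split_ifs with hy
    · exact (h3 A D t d (mg true W) u hu hd.2 hy).trans (Nat.mul_le_mul_right _ hd.2)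
    · simp
  have hsub : (univ : Finset (Fin t → Fin D → Matrix (Fin A) (Fin A) (ZMod 2))) ⊆
      (wds D t).biUnion fun W => (Icc 1 t).biUnion fun d => bad W d := by
    intro M _
    obtain ⟨W, hW, d, hd1, hdt, hy, hz⟩ := hcon M
    rw [mem_biUnion]
    refine ⟨W, mem_wds hW, ?_⟩
    rw [mem_biUnion]
    refine ⟨d, mem_Icc.2 ⟨hd1, hdt⟩, ?_⟩
    simp only [hbad]
    rw [if_pos hy, mem_filter]
    exact ⟨mem_univ _, hz⟩
  have h1 : N ≤ ∑ W ∈ wds D t, ∑ d ∈ Icc 1 t, (bad W d).card := by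
    rw [hN, ← card_univ]
    refine (card_le_card hsub).trans (card_biUnion_le.trans ?_)
    exact sum_le_sum fun W _ => card_biUnion_le
  have h2 : N * 2 ^ A ≤ (D + 1) ^ t * (t * (t * N)) := by
    calc N * 2 ^ A ≤ (∑ W ∈ wds D t, ∑ d ∈ Icc 1 t, (bad W d).card) * 2 ^ A :=
          Nat.mul_le_mul_right _ h1
      _ = ∑ W ∈ wds D t, ∑ d ∈ Icc 1 t, (bad W d).card * 2 ^ A := by
          rw [sum_mul]
          exact sum_congr rfl fun W _ => sum_mul _ _ _
      _ ≤ ∑ W ∈ wds D t, ∑ d ∈ Icc 1 t, t * N :=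
          sum_le_sum fun W _ => sum_le_sum fun d hd => hb W d hd
      _ = (wds D t).card * (t * (t * N)) := by
          rw [sum_const, sum_const, Nat.card_Icc, smul_eq_mul, smul_eq_mul, Nat.add_sub_cancel]
      _ ≤ (D + 1) ^ t * (t * (t * N)) := Nat.mul_le_mul_right _ (card_wds D t)
  have h4 : t ^ 2 * (D + 1) ^ t * N < 2 ^ A * N := Nat.mul_lt_mul_of_pos_right ht hNpos
  have h5 : (D + 1) ^ t * (t * (t * N)) = t ^ 2 * (D + 1) ^ t * N := by ring
  rw [h5, mul_comm N] at h2
  omega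

end Pool.Agent.RHO.H77c
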