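import Pool.Agent.RHO.Stmts3

/-!
# Row PTS of the table ca0 (MP_ca8ef3_an)
-/

set_option autoImplicit false

namespace Pool.Agent.RHO.H77c

open Finset

section

variable {ι : Type} [Fintype ι] [DecidableEq ι]

theorem van_mono (hrmb : RMBStmt) {d d' : ℕ} (h : d ≤ d') {τ : Fn ι} (hv : Van τ d') :
    Van τ d := fun f hf => hv f ((hrmb ι).1 d d' h hf)

theorem pr_add (a b f : Fn ι) : pr (a + b) f = pr a f + pr b f := by
  simp only [pr, Pi.add_apply, add_mul, Finset.sum_add_distrib]

theorem pr_ind (Z : Finset (Pt ι)) (f : Fn ι) : pr (ind Z) f = ∑ z ∈ Z, f z := by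
  unfold pr ind
  simp only [ite_mul, one_mul, zero_mul]
  rw [Finset.sum_ite_mem, Finset.univ_inter]

theorem pr_cel {h : ℕ} (π : Pt ι →ₗ[ZMod 2] Pt (Fin h)) (τ f : Fn ι) :
    pr τ f = ∑ v, pr (τ * cel π v) f := by
  unfold pr
  rw [Finset.sum_comm]
  refine Finset.sum_congr rfl fun z _ => ?_
  simp only [cel, Pi.mul_apply, mul_ite, mul_one, mul_zero, ite_mul, zero_mul]
  rw [Finset.sum_ite_eq]
  simp

theorem pr_cel_self {h : ℕ} (π : Pt ι →ₗ[ZMod 2] Pt (Fin h)) (τ : Fn ι) (v : Pt (Fin h)) :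
    pr (τ * cel π v) (cel π v) = pr (τ * cel π v) 1 := by
  unfold pr
  refine Finset.sum_congr rfl fun z _ => ?_
  simp only [cel, Pi.mul_apply, Pi.one_apply]
  split_ifs <;> simp

end

theorem pts (hrmb : RMBStmt) (hmax : MAXStmt) (hpt1 : PT1Stmt) : PTSStmt := by
  classical
  intro ι _ _ k d t h τ hlow hhk hkd ht
  obtain ⟨hmono, hmul, -, hone, hcoord, -, -, hcel⟩ := hrmb ι
  obtain ⟨π, hπ⟩ := hmax ι k d t h τ hlow hhk ht
  set S : Finset (Pt (Fin h)) := univ.filter fun v => ¬ Van (τ * cel π v) (k - 1) with hS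
  have hScard : S.card ≤ t := by
    refine hlow.few h (by omega) π S fun v hv => ?_
    rw [hS, mem_filter] at hv
    exact hv.2
  -- the point of a nonzero cell
  have hpt : ∀ v : Pt (Fin h), ∃ c : Pt ι, v ∈ S →
      π c = v ∧ ∀ f ∈ RM ι (d - h), pr (τ * cel π v) f = f c := by
    intro v
    by_cases hv : v ∈ S
    swap
    · exact ⟨0, fun hc => absurd hc hv⟩
    have hv' : ¬ Van (τ * cel π v) (k - 1) := by
      rw [hS, mem_filter] at hv
      exact hv.2
    have hc : ∀ i : ι, ∃ c : ZMod 2, Van (τ * cel π v * fun z => z i + c) (k - 1) := by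
      intro i
      rcases hπ v hv' i with h1 | h1
      · refine ⟨0, ?_⟩
        have e1 : (fun z : Pt ι => z i + 0) = fun z => z i := by
          funext z
          rw [add_zero]
        rw [e1]
        exact h1
      · exact ⟨1, h1⟩
    choose c hc using hc
    have hc2 : ∀ i : ι, Van (τ * cel π v * fun z => z i + c i) (d - h - 1) := by
      intro i
      have h1 : (cel π v * fun z : Pt ι => z i + c i) ∈ RM ι (h + 1) := by
        refine hmul h 1 _ _ (hcel h π v) ?_
        have e1 : (fun z : Pt ι => z i + c i) = (fun z : Pt ι => z i) + c i • (1 : Fn ι) := by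
          funext z
          simp
        rw [e1]
        exact Submodule.add_mem _ (hcoord i)
          (Submodule.smul_mem _ _ (hmono 0 1 (by omega) hone))
      have h2 := hlow.gap (h + 1) hhk _ h1 (by
        rw [← mul_assoc]
        exact hc i)
      rw [← mul_assoc] at h2
      have e2 : d - (h + 1) = d - h - 1 := by omega
      rw [e2] at h2
      exact h2
    have hnv : ¬ Van (τ * cel π v) (d - h) := fun hc' =>
      hv' (van_mono hrmb (show k - 1 ≤ d - h by omega) hc')
    have hev := hpt1 ι (d - h) (τ * cel π v) c hc2 hnv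
    refine ⟨c, fun _ => ⟨?_, hev⟩⟩
    have h3 := hev (cel π v) (hmono h (d - h) (by omega) (hcel h π v))
    have h4 := hev 1 (hmono 0 (d - h) (by omega) hone)
    rw [pr_cel_self, h4] at h3
    by_contra hne
    simp [cel, hne] at h3
  choose c hc using hpt
  refine ⟨S.image c, card_image_le.trans hScard, ?_⟩
  intro f hf
  have hinj : Set.InjOn c (S : Set (Pt (Fin h))) := by
    intro v hv w hw hvw
    rw [← (hc v hv).1, ← (hc w hw).1, hvw]
  rw [pr_add, pr_ind, sum_image hinj, pr_cel π τ f, ← Finset.sum_filter_add_sum_filter_not univ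
    (fun v => ¬ Van (τ * cel π v) (k - 1)), ← hS]
  have h5 : ∑ v ∈ S, pr (τ * cel π v) f = ∑ v ∈ S, f (c v) :=
    sum_congr rfl fun v hv => (hc v hv).2 f hf
  have h6 : ∑ v ∈ univ.filter (fun v => ¬ ¬ Van (τ * cel π v) (k - 1)),
      pr (τ * cel π v) f = 0 := by
    refine sum_eq_zero fun v hv => ?_
    rw [mem_filter, not_not] at hv
    exact hlow.gap h (by omega) _ (hcel h π v) hv.2 f hf
  rw [h5, h6, add_zero]
  exact CharTwo.add_self_eq_zero _

end Pool.Agent.RHO.H77c
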